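import Mathlib

/-!
# Triangulations of circular `k`-matching-planar drawings

A circular drawing of a graph with `n` vertices is given by the order `0, 1, …, n - 1` of the
vertices around the circle; a segment between two vertices is written as a pair `(a, b)` with
`a < b`.  Two segments cross exactly when they have no common endpoint and their endpoints
alternate around the circle.

For every `k ≥ 1` we give a graph on `n = 3 k + 4` vertices (all pairs of vertices at distance at
most `k + 1` around the circle) whose circular drawing is `k`-matching-planar, such that every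
triangulation of the outer cycle has a segment which is pierced by `k + 1` pairwise independent
edges.  So the question has a negative answer, for every `k ≥ 1`; for `k = 1` the example is the
heptagon with its seven short diagonals (and its sides).
-/

set_option autoImplicit false

namespace Pool.Agent.Results.MP_755a2c_co.CirculantCounterexample

/-- The segments `s = (s.1, s.2)` and `t = (t.1, t.2)` (with `s.1 < s.2` and `t.1 < t.2`) cross:
they have no common endpoint and their endpoints alternate around the circle. -/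
def Cross {n : ℕ} (s t : Fin n × Fin n) : Prop :=
  (s.1 < t.1 ∧ t.1 < s.2 ∧ s.2 < t.2) ∨ (t.1 < s.1 ∧ s.1 < t.2 ∧ t.2 < s.2)

/-- The segments `s` and `t` have no common endpoint. -/
def Independent {n : ℕ} (s t : Fin n × Fin n) : Prop :=
  s.1 ≠ t.1 ∧ s.1 ≠ t.2 ∧ s.2 ≠ t.1 ∧ s.2 ≠ t.2

/-- The set of edges of `G` which cross the segment `t` contains `m` pairwise independent edges. -/
def PiercedByMatching {n : ℕ} (G : SimpleGraph (Fin n)) (m : ℕ) (t : Fin n × Fin n) : Prop :=
  ∃ M : Finset (Fin n × Fin n), M.card = m ∧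
    (∀ e ∈ M, e.1 < e.2 ∧ G.Adj e.1 e.2 ∧ Cross e t) ∧
    (∀ e ∈ M, ∀ f ∈ M, e ≠ f → Independent e f)

/-- The circular drawing of `G` (with the vertices `0, …, n - 1` in this order around the circle) is
`k`-matching-planar: for every edge the edges crossing it contain no matching of size `k + 1`. -/
def MatchingPlanar {n : ℕ} (G : SimpleGraph (Fin n)) (k : ℕ) : Prop :=
  ∀ t : Fin n × Fin n, t.1 < t.2 → G.Adj t.1 t.2 → ¬ PiercedByMatching G (k + 1) t

/-- `T` is a triangulation of the outer cycle: an inclusion-maximal set of pairwise non-crossing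
segments between the vertices.  (The `n` sides of the polygon cross no segment, so they all belong
to `T`.) -/
def IsTriangulation {n : ℕ} (T : Set (Fin n × Fin n)) : Prop :=
  (∀ t ∈ T, t.1 < t.2) ∧ (∀ s ∈ T, ∀ t ∈ T, ¬ Cross s t) ∧
    (∀ t : Fin n × Fin n, t.1 < t.2 → (∀ s ∈ T, ¬ Cross s t) → t ∈ T)

/-- In a triangulation every segment `(i, j)` with a vertex between `i` and `j` has an apex
between `i` and `j`. -/
theorem apex {n : ℕ} {T : Set (Fin n × Fin n)} (hT : IsTriangulation T) {i j : Fin n}
    (hij : (i, j) ∈ T) (h2 : i.val + 2 ≤ j.val) :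
    ∃ c : Fin n, i < c ∧ c < j ∧ (i, c) ∈ T ∧ (c, j) ∈ T := by
  classical
  obtain ⟨hlt, hnc, hmax⟩ := hT
  let S : Finset (Fin n) := Finset.univ.filter (fun c => i < c ∧ c < j ∧ (i, c) ∈ T)
  have hne : S.Nonempty := by
    refine ⟨⟨i.val + 1, by omega⟩, ?_⟩
    simp only [S, Finset.mem_filter, Finset.mem_univ, true_and]
    refine ⟨by rw [Fin.lt_def]; simp, by rw [Fin.lt_def]; simp; omega, ?_⟩
    apply hmax
    · rw [Fin.lt_def]; simp
    · intro s _ hc
      simp only [Cross, Fin.lt_def] at hc
      omega
  obtain ⟨c, hcS, hcm⟩ := S.exists_max_image (fun c => c.val) hne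
  simp only [S, Finset.mem_filter, Finset.mem_univ, true_and] at hcS hcm
  obtain ⟨hic, hcj, hicT⟩ := hcS
  refine ⟨c, hic, hcj, hicT, ?_⟩
  apply hmax _ hcj
  rintro ⟨p, q⟩ hs hc
  have h1 := hnc _ hs _ hij
  have h3 := hnc _ hs _ hicT
  have h4 := hlt _ hs
  have h5 : i < q → q < j → (i, q) ∈ T → q.val ≤ c.val := fun a b d => hcm q ⟨a, b, d⟩
  simp only [Cross, Fin.lt_def, not_or, not_and] at *
  rcases hc with ⟨a1, a2, a3⟩ | ⟨a1, a2, a3⟩
  · by_cases hp : p = i
    · subst hp
      have := h5 (by omega) (by omega) hs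
      omega
    · have hp' : p.val ≠ i.val := fun e => hp (Fin.ext e)
      omega
  · omega

/-- Every triangulation of a polygon with `3 k + 4` corners has a segment with at least `k + 1`
corners strictly on either side. -/
theorem long_segment {k : ℕ} {T : Set (Fin (3 * k + 4) × Fin (3 * k + 4))}
    (hT : IsTriangulation T) :
    ∃ i j : Fin (3 * k + 4), (i, j) ∈ T ∧ i.val + (k + 2) ≤ j.val ∧ j.val ≤ i.val + (2 * k + 2) := by
  classical
  let P : ℕ → Prop := fun d => ∃ i j : Fin (3 * k + 4), (i, j) ∈ T ∧ j.val = i.val + d ∧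
    2 * k + 3 ≤ d
  have hP : ∃ d, P d := by
    refine ⟨3 * k + 3, ⟨0, by omega⟩, ⟨3 * k + 3, by omega⟩, ?_, by simp, by omega⟩
    apply hT.2.2
    · rw [Fin.lt_def]; simp
    · rintro ⟨p, q⟩ _ hc
      have := p.isLt
      have := q.isLt
      simp only [Cross, Fin.lt_def] at hc
      omega
  obtain ⟨i, j, hij, hd, hk⟩ := Nat.find_spec hP
  obtain ⟨c, hic, hcj, h1, h2⟩ := apex hT hij (by omega)
  rw [Fin.lt_def] at hic hcj
  have hmin : ∀ d, d < Nat.find hP → ¬ P d := fun d hd => Nat.find_min hP hd
  have e1 : ¬ (2 * k + 3 ≤ c.val - i.val) := by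
    intro h
    exact hmin (c.val - i.val) (by omega) ⟨i, c, h1, by omega, h⟩
  have e2 : ¬ (2 * k + 3 ≤ j.val - c.val) := by
    intro h
    exact hmin (j.val - c.val) (by omega) ⟨c, j, h2, by omega, h⟩
  by_cases h : k + 2 ≤ c.val - i.val
  · exact ⟨i, c, h1, by omega, by omega⟩
  · exact ⟨c, j, h2, by omega, by omega⟩

/-- The graph on `n` vertices in which two different vertices are adjacent when their distance
around the circle is at most `m`. -/
def circulant (n m : ℕ) : SimpleGraph (Fin n) where
  Adj a b := a ≠ b ∧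
    ((a.val ≤ b.val + m ∧ b.val ≤ a.val + m) ∨ n ≤ b.val + m - a.val ∨ n ≤ a.val + m - b.val)
  symm := by
    constructor
    rintro a b ⟨h1, h2⟩
    exact ⟨h1.symm, by omega⟩
  loopless := by
    constructor
    rintro a ⟨h1, _⟩
    exact h1 rfl

theorem matchingPlanar_circulant (k : ℕ) : MatchingPlanar (circulant (3 * k + 4) (k + 1)) k := by
  classical
  rintro ⟨a, b⟩ hab hadj ⟨M, hM, he, hind⟩
  simp only at hab hadj
  rw [Fin.lt_def] at hab
  obtain ⟨-, hadj⟩ := hadj
  have ha := a.isLt
  have hb := b.isLt
  have hcases : b.val ≤ a.val + (k + 1) ∨ 3 * k + 4 ≤ b.val + (k + 1) - a.val := by omega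
  rcases hcases with h | h
  · -- at most `k` vertices between `a` and `b`
    have hcard : M.card ≤ (Finset.Ioo a b).card := by
      apply Finset.card_le_card_of_injOn (fun e => if a < e.1 ∧ e.1 < b then e.1 else e.2)
      · intro e heM
        obtain ⟨h1, -, h3⟩ := he e heM
        simp only [Finset.coe_Ioo, Set.mem_Ioo]
        simp only [Cross] at h3
        split_ifs with h4
        · exact h4
        · rcases h3 with h3 | h3
          · exact ⟨h3.2.1, h3.2.2⟩
          · exact absurd ⟨h3.1, h3.2.1⟩ h4
      · intro e heM f hfM hef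
        by_contra hne
        obtain ⟨i1, i2, i3, i4⟩ := hind e heM f hfM hne
        simp only at hef
        split_ifs at hef
        · exact i1 hef
        · exact i2 hef
        · exact i3 hef
        · exact i4 hef
    rw [Fin.card_Ioo, hM] at hcard
    omega
  · have hcard : M.card ≤ ((Finset.Icc a b)ᶜ).card := by
      apply Finset.card_le_card_of_injOn (fun e => if a < e.1 ∧ e.1 < b then e.2 else e.1)
      · intro e heM
        obtain ⟨h1, -, h3⟩ := he e heM
        simp only [Cross] at h3
        simp only [Finset.coe_compl, Finset.coe_Icc, Set.mem_compl_iff, Set.mem_Icc, not_and,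
          not_le]
        intro h5
        split_ifs at h5 ⊢ with h4
        · rcases h3 with h3 | h3
          · exact absurd (lt_trans h3.1 h4.1) (lt_irrefl _)
          · exact h3.2.2
        · rcases h3 with h3 | h3
          · exact absurd h5 (not_le.mpr h3.1)
          · exact absurd ⟨h3.1, h3.2.1⟩ h4
      · intro e heM f hfM hef
        by_contra hne
        obtain ⟨i1, i2, i3, i4⟩ := hind e heM f hfM hne
        simp only at hef
        split_ifs at hef
        · exact i4 hef
        · exact i3 hef
        · exact i2 hef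
        · exact i1 hef
    rw [Finset.card_compl, Fin.card_Icc, hM, Fintype.card_fin] at hcard
    omega

theorem pierced_long {k : ℕ} (hk : 1 ≤ k) {i j : Fin (3 * k + 4)} (h1 : i.val + (k + 2) ≤ j.val)
    (h2 : j.val ≤ i.val + (2 * k + 2)) :
    PiercedByMatching (circulant (3 * k + 4) (k + 1)) (k + 1) (i, j) := by
  classical
  have hi := i.isLt
  have hj := j.isLt
  -- the endpoints inside and outside of the interval from `i` to `j`
  let xv : Fin (k + 1) → ℕ := fun s => if s.val = k then j.val - 1 else i.val + s.val + 1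
  let yv : Fin (k + 1) → ℕ := fun s =>
    if s.val = k then (if j.val + 1 = 3 * k + 4 then 0 else j.val + 1)
    else (if k - s.val ≤ i.val then i.val - (k - s.val) else i.val + (3 * k + 4) - (k - s.val))
  have hx1 : ∀ s, i.val < xv s ∧ xv s < j.val := by
    intro s
    have := s.isLt
    simp only [xv]
    split_ifs <;> omega
  have hy1 : ∀ s, yv s < 3 * k + 4 ∧ (yv s < i.val ∨ j.val < yv s) := by
    intro s
    have := s.isLt
    simp only [yv]
    split_ifs <;> omega
  have hxx : ∀ s t, s ≠ t → xv s ≠ xv t := by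
    intro s t hst
    have := s.isLt
    have := t.isLt
    have : s.val ≠ t.val := fun h => hst (Fin.ext h)
    simp only [xv]
    split_ifs <;> omega
  have hyy : ∀ s t, s ≠ t → yv s ≠ yv t := by
    intro s t hst
    have := s.isLt
    have := t.isLt
    have : s.val ≠ t.val := fun h => hst (Fin.ext h)
    simp only [yv]
    split_ifs <;> omega
  have hadj : ∀ s, (xv s ≤ yv s + (k + 1) ∧ yv s ≤ xv s + (k + 1)) ∨
      3 * k + 4 ≤ yv s + (k + 1) - xv s ∨ 3 * k + 4 ≤ xv s + (k + 1) - yv s := by
    intro s
    have := s.isLt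
    simp only [xv, yv]
    split_ifs <;> omega
  let X : Fin (k + 1) → Fin (3 * k + 4) := fun s => ⟨xv s, by have := hx1 s; omega⟩
  let Y : Fin (k + 1) → Fin (3 * k + 4) := fun s => ⟨yv s, (hy1 s).1⟩
  let e : Fin (k + 1) → Fin (3 * k + 4) × Fin (3 * k + 4) := fun s =>
    if X s < Y s then (X s, Y s) else (Y s, X s)
  have hXY : ∀ s t, X s ≠ Y t := by
    intro s t h
    have h' : xv s = yv t := congrArg Fin.val h
    have := hx1 s
    have := hy1 t
    omega
  have hXX : ∀ s t, s ≠ t → X s ≠ X t := fun s t hst h => hxx s t hst (congrArg Fin.val h)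
  have hYY : ∀ s t, s ≠ t → Y s ≠ Y t := fun s t hst h => hyy s t hst (congrArg Fin.val h)
  have hind : ∀ s t, s ≠ t → Independent (e s) (e t) := by
    intro s t hst
    have a1 := hXX s t hst
    have a2 := hYY s t hst
    have a3 := hXY s t
    have a4 := (hXY t s).symm
    simp only [e, Independent]
    split_ifs
    · exact ⟨a1, a3, a4, a2⟩
    · exact ⟨a3, a1, a2, a4⟩
    · exact ⟨a4, a2, a1, a3⟩
    · exact ⟨a2, a4, a3, a1⟩
  have hinj : Function.Injective e := by
    intro s t hst
    by_contra hne
    have := (hind s t hne).1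
    rw [hst] at this
    exact this rfl
  refine ⟨Finset.univ.image e, ?_, ?_, ?_⟩
  · rw [Finset.card_image_of_injective _ hinj, Finset.card_univ, Fintype.card_fin]
  · intro p hp
    obtain ⟨s, -, rfl⟩ := Finset.mem_image.mp hp
    have b1 := hx1 s
    have b2 := hy1 s
    have b3 := hadj s
    simp only [e]
    split_ifs with h
    · refine ⟨h, ⟨hXY s s, b3⟩, ?_⟩
      rw [Fin.lt_def] at h
      simp only [Cross, Fin.lt_def, X, Y] at h ⊢
      omega
    · have h' : Y s < X s := lt_of_le_of_ne (not_lt.mp h) (hXY s s).symm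
      refine ⟨h', ⟨(hXY s s).symm, ?_⟩, ?_⟩
      · simp only [X, Y]
        omega
      · rw [Fin.lt_def] at h'
        simp only [Cross, Fin.lt_def, X, Y] at h' ⊢
        omega
  · intro p hp q hq hpq
    obtain ⟨s, -, rfl⟩ := Finset.mem_image.mp hp
    obtain ⟨t, -, rfl⟩ := Finset.mem_image.mp hq
    exact hind s t (fun h => hpq (by rw [h]))

/-- For every `k ≥ 1` there is a circular `k`-matching-planar drawing of a graph such that every
triangulation of the outer cycle has a segment pierced by `k + 1` pairwise independent edges. -/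
theorem result : ∀ k : ℕ, 1 ≤ k → ∃ n : ℕ, 3 ≤ n ∧ ∃ G : SimpleGraph (Fin n),
    MatchingPlanar G k ∧
      ∀ T : Set (Fin n × Fin n), IsTriangulation T → ∃ t ∈ T, PiercedByMatching G (k + 1) t := by
  intro k hk
  refine ⟨3 * k + 4, by omega, circulant (3 * k + 4) (k + 1), matchingPlanar_circulant k, ?_⟩
  intro T hT
  obtain ⟨i, j, hij, h1, h2⟩ := long_segment hT
  exact ⟨(i, j), hij, pierced_long hk h1 h2⟩

end Pool.Agent.Results.MP_755a2c_co.CirculantCounterexample
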