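import Mathlib

set_option autoImplicit false

/-!
# Circular 1-matching-planar drawings without a good triangulation

The seven short diagonals of a heptagon form a circular 1-matching-planar drawing, but every
triangulation of the heptagon contains a diagonal `(i, i + 3)`, and that diagonal is pierced by the
two independent short diagonals `(i - 1, i + 1)` and `(i + 2, i + 4)`.
-/

namespace Pool.Agent.Results.MP_755a2c_co.Heptagon

/-- The vertices `0, …, n - 1` are placed in this order around the circle. A segment is given by its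
endpoints `p.1 < p.2`. Two segments cross if they have no common endpoint and their endpoints
alternate around the circle. -/
def Cross {n : ℕ} (p q : Fin n × Fin n) : Prop :=
  (p.1 < q.1 ∧ q.1 < p.2 ∧ p.2 < q.2) ∨ (q.1 < p.1 ∧ p.1 < q.2 ∧ q.2 < p.2)

/-- Two segments are independent if they share no endpoint. -/
def Indep {n : ℕ} (p q : Fin n × Fin n) : Prop :=
  p.1 ≠ q.1 ∧ p.1 ≠ q.2 ∧ p.2 ≠ q.1 ∧ p.2 ≠ q.2

/-- The segment `t` is crossed by `m` pairwise independent edges of `G`. -/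
def PiercedBy {n : ℕ} (G : SimpleGraph (Fin n)) (t : Fin n × Fin n) (m : ℕ) : Prop :=
  ∃ M : Finset (Fin n × Fin n), M.card = m ∧
    (∀ e ∈ M, e.1 < e.2 ∧ G.Adj e.1 e.2 ∧ Cross e t) ∧
    ∀ e ∈ M, ∀ f ∈ M, e ≠ f → Indep e f

/-- The circular drawing of `G` is `k`-matching-planar: no edge of `G` is crossed by `k + 1` pairwise
independent edges of `G`. -/
def MatchingPlanar {n : ℕ} (k : ℕ) (G : SimpleGraph (Fin n)) : Prop :=
  ∀ e : Fin n × Fin n, e.1 < e.2 → G.Adj e.1 e.2 → ¬ PiercedBy G e (k + 1)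

/-- `t` is a side of the polygon `0, 1, …, n - 1`. -/
def IsSide {n : ℕ} (t : Fin n × Fin n) : Prop :=
  (t.2 : ℕ) = t.1 + 1 ∨ ((t.1 : ℕ) = 0 ∧ (t.2 : ℕ) + 1 = n)

/-- `t` is a diagonal of the polygon. -/
def IsDiagonal {n : ℕ} (t : Fin n × Fin n) : Prop := t.1 < t.2 ∧ ¬ IsSide t

/-- `T` is a triangulation of the polygon: it consists of all sides together with an
inclusion-maximal set of pairwise non-crossing diagonals. -/
def IsTriangulation {n : ℕ} (T : Finset (Fin n × Fin n)) : Prop :=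
  (∀ t : Fin n × Fin n, t.1 < t.2 → IsSide t → t ∈ T) ∧
  (∀ t ∈ T, t.1 < t.2) ∧
  (∀ s ∈ T, ∀ t ∈ T, IsDiagonal s → IsDiagonal t → ¬ Cross s t) ∧
  (∀ s : Fin n × Fin n, IsDiagonal s → (∀ t ∈ T, IsDiagonal t → ¬ Cross s t) → s ∈ T)

instance {n : ℕ} (p q : Fin n × Fin n) : Decidable (Cross p q) := by
  unfold Cross; infer_instance

instance {n : ℕ} (p q : Fin n × Fin n) : Decidable (Indep p q) := by
  unfold Indep; infer_instance

instance {n : ℕ} (t : Fin n × Fin n) : Decidable (IsSide t) := by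
  unfold IsSide; infer_instance

instance {n : ℕ} (t : Fin n × Fin n) : Decidable (IsDiagonal t) := by
  unfold IsDiagonal; infer_instance

/-- the short diagonals of the heptagon -/
def G7 : SimpleGraph (Fin 7) := SimpleGraph.fromRel (fun i j => j = i + 2)

instance : DecidableRel G7.Adj := by
  unfold G7; infer_instance

/-- every edge is crossed only by dependent edges -/
theorem dependent : ∀ e : Fin 7 × Fin 7, e.1 < e.2 → G7.Adj e.1 e.2 →
    ∀ a : Fin 7 × Fin 7, a.1 < a.2 → G7.Adj a.1 a.2 → Cross a e →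
    ∀ b : Fin 7 × Fin 7, b.1 < b.2 → G7.Adj b.1 b.2 → Cross b e → ¬ Indep a b := by
  decide +kernel

theorem matchingPlanar : MatchingPlanar 1 G7 := by
  intro e he hadj
  rintro ⟨M, hM, h1, h2⟩
  obtain ⟨a, b, hab, rfl⟩ := Finset.card_eq_two.mp hM
  obtain ⟨a1, a2, a3⟩ := h1 a (by simp)
  obtain ⟨b1, b2, b3⟩ := h1 b (by simp)
  exact dependent e he hadj a a1 a2 a3 b b1 b2 b3 (h2 a (by simp) b (by simp) hab)

/-- the long diagonals -/
theorem pierced (t : Fin 7 × Fin 7) (ht : t ∈ ({(0, 3), (1, 4), (2, 5), (3, 6), (0, 4), (1, 5),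
    (2, 6)} : Finset (Fin 7 × Fin 7))) : PiercedBy G7 t 2 := by
  have key : ∀ t ∈ ({(0, 3), (1, 4), (2, 5), (3, 6), (0, 4), (1, 5),
      (2, 6)} : Finset (Fin 7 × Fin 7)), ∃ a b : Fin 7 × Fin 7, a ≠ b ∧ a.1 < a.2 ∧ b.1 < b.2 ∧
      G7.Adj a.1 a.2 ∧ G7.Adj b.1 b.2 ∧ Cross a t ∧ Cross b t ∧ Indep a b ∧ Indep b a := by
    decide +kernel
  obtain ⟨a, b, hab, a1, b1, a2, b2, a3, b3, i1, i2⟩ := key t ht
  refine ⟨{a, b}, Finset.card_pair hab, ?_, ?_⟩
  · intro e he
    rcases Finset.mem_insert.mp he with rfl | he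
    · exact ⟨a1, a2, a3⟩
    · rw [Finset.mem_singleton] at he
      subst he
      exact ⟨b1, b2, b3⟩
  · intro e he f hf hne
    rcases Finset.mem_insert.mp he with rfl | he
    · rcases Finset.mem_insert.mp hf with rfl | hf
      · exact absurd rfl hne
      · rw [Finset.mem_singleton] at hf
        subst hf
        exact i1
    · rw [Finset.mem_singleton] at he
      subst he
      rcases Finset.mem_insert.mp hf with rfl | hf
      · exact i2
      · rw [Finset.mem_singleton] at hf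
        exact absurd hf.symm hne

/-- every triangulation contains a long diagonal -/
theorem exists_long (T : Finset (Fin 7 × Fin 7)) (hT : IsTriangulation T) :
    ∃ t ∈ T, t ∈ ({(0, 3), (1, 4), (2, 5), (3, 6), (0, 4), (1, 5),
      (2, 6)} : Finset (Fin 7 × Fin 7)) := by
  obtain ⟨-, -, hcross, hmax⟩ := hT
  by_contra hcon
  push Not at hcon
  -- the only diagonals are the short ones
  have hdiag : ∀ t : Fin 7 × Fin 7, IsDiagonal t → t ∈ ({(0, 3), (1, 4), (2, 5), (3, 6), (0, 4),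
      (1, 5), (2, 6)} : Finset (Fin 7 × Fin 7)) ∨ t ∈ ({(0, 2), (1, 3), (2, 4), (3, 5), (4, 6),
      (0, 5), (1, 6)} : Finset (Fin 7 × Fin 7)) := by
    decide +kernel
  have hlong : ∀ s ∈ ({(0, 3), (1, 4), (2, 5), (3, 6), (0, 4), (1, 5), (2, 6)} :
      Finset (Fin 7 × Fin 7)), ∃ t ∈ ({(0, 2), (1, 3), (2, 4), (3, 5), (4, 6),
      (0, 5), (1, 6)} : Finset (Fin 7 × Fin 7)), t ∈ T ∧ Cross s t := by
    intro s hs
    have hsd : IsDiagonal s := by
      have : ∀ s ∈ ({(0, 3), (1, 4), (2, 5), (3, 6), (0, 4), (1, 5), (2, 6)} :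
        Finset (Fin 7 × Fin 7)), IsDiagonal s := by decide +kernel
      exact this s hs
    by_contra hno
    push Not at hno
    refine hcon s (hmax s hsd ?_) hs
    intro t ht htd
    rcases hdiag t htd with h | h
    · exact absurd h (hcon t ht)
    · exact hno t h ht
  have hsd : ∀ t ∈ ({(0, 2), (1, 3), (2, 4), (3, 5), (4, 6), (0, 5), (1, 6)} :
      Finset (Fin 7 × Fin 7)), IsDiagonal t := by decide +kernel
  have no : ∀ s ∈ ({(0, 2), (1, 3), (2, 4), (3, 5), (4, 6), (0, 5), (1, 6)} :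
      Finset (Fin 7 × Fin 7)), ∀ t ∈ ({(0, 2), (1, 3), (2, 4), (3, 5), (4, 6), (0, 5), (1, 6)} :
      Finset (Fin 7 × Fin 7)), Cross s t → ¬ (s ∈ T ∧ t ∈ T) := by
    intro s hs t ht hc h
    exact hcross s h.1 t h.2 (hsd s hs) (hsd t ht) hc
  -- boolean reasoning on the seven short diagonals
  have l1 : (1, 6) ∈ T ∨ (2, 4) ∈ T := by
    obtain ⟨t, h1, h2, h3⟩ := hlong (0, 3) (by decide)
    have : ∀ t ∈ ({(0, 2), (1, 3), (2, 4), (3, 5), (4, 6), (0, 5), (1, 6)} :
      Finset (Fin 7 × Fin 7)), Cross (0, 3) t → t = (1, 6) ∨ t = (2, 4) := by decide +kernel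
    rcases this t h1 h3 with rfl | rfl
    · exact Or.inl h2
    · exact Or.inr h2
  have l4 : (2, 4) ∈ T ∨ (0, 5) ∈ T := by
    obtain ⟨t, h1, h2, h3⟩ := hlong (3, 6) (by decide)
    have : ∀ t ∈ ({(0, 2), (1, 3), (2, 4), (3, 5), (4, 6), (0, 5), (1, 6)} :
      Finset (Fin 7 × Fin 7)), Cross (3, 6) t → t = (2, 4) ∨ t = (0, 5) := by decide +kernel
    rcases this t h1 h3 with rfl | rfl
    · exact Or.inl h2
    · exact Or.inr h2
  have l5 : (1, 6) ∈ T ∨ (3, 5) ∈ T := by
    obtain ⟨t, h1, h2, h3⟩ := hlong (0, 4) (by decide)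
    have : ∀ t ∈ ({(0, 2), (1, 3), (2, 4), (3, 5), (4, 6), (0, 5), (1, 6)} :
      Finset (Fin 7 × Fin 7)), Cross (0, 4) t → t = (1, 6) ∨ t = (3, 5) := by decide +kernel
    rcases this t h1 h3 with rfl | rfl
    · exact Or.inl h2
    · exact Or.inr h2
  have l7 : (1, 3) ∈ T ∨ (0, 5) ∈ T := by
    obtain ⟨t, h1, h2, h3⟩ := hlong (2, 6) (by decide)
    have : ∀ t ∈ ({(0, 2), (1, 3), (2, 4), (3, 5), (4, 6), (0, 5), (1, 6)} :
      Finset (Fin 7 × Fin 7)), Cross (2, 6) t → t = (1, 3) ∨ t = (0, 5) := by decide +kernel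
    rcases this t h1 h3 with rfl | rfl
    · exact Or.inl h2
    · exact Or.inr h2
  have n2 := no (1, 3) (by decide) (2, 4) (by decide) (by decide)
  have n3 := no (2, 4) (by decide) (3, 5) (by decide) (by decide)
  have n6 := no (0, 5) (by decide) (1, 6) (by decide) (by decide)
  have main : (1, 6) ∈ T → False := by
    intro h0
    rcases l4 with h3 | h6
    · rcases l7 with h2 | h6
      · exact n2 ⟨h2, h3⟩
      · exact n6 ⟨h6, h0⟩
    · exact n6 ⟨h6, h0⟩
  rcases l1 with h0 | h3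
  · exact main h0
  · rcases l5 with h0 | h4
    · exact main h0
    · exact n3 ⟨h3, h4⟩

/-- There is a circular 1-matching-planar drawing (of a graph with 7 vertices) such that every
triangulation of its outer cycle has a segment that is pierced by 2 pairwise independent edges. So
the property asked for fails for `k = 1`. -/
theorem result : ∃ (k n : ℕ) (G : SimpleGraph (Fin n)), 1 ≤ k ∧ 3 ≤ n ∧ MatchingPlanar k G ∧
    ∀ T : Finset (Fin n × Fin n), IsTriangulation T → ∃ t ∈ T, PiercedBy G t (k + 1) := by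
  refine ⟨1, 7, G7, le_refl _, by norm_num, matchingPlanar, ?_⟩
  intro T hT
  obtain ⟨t, h1, h2⟩ := exists_long T hT
  exact ⟨t, h1, pierced t h2⟩

end Pool.Agent.Results.MP_755a2c_co.Heptagon
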